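import Pool.Agent.Lib.MP_7d3fda_nt.R4.YFinal
import Pool.Agent.Lib.MP_7d3fda_nt.Q3.All

/-! Every elliptic curve over the rationals with full rational two-torsion and no rational cyclic
four-isogeny has at least `c D^(1/4) / (log D)^K` quadratic twists of rank exactly two by
fundamental discriminants `d`, `|d| ≤ D`. -/

namespace Pool.Agent.Lib.MP_7d3fda_nt.Variants.RankTwoGeneric

theorem result (W : WeierstrassCurve ℚ) [W.IsElliptic] (h2 : W.Ψ₂Sq.Splits)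
    (h4 : ∀ x : ℚ, W.Ψ₂Sq.IsRoot x → ¬IsSquare (W.Ψ₂Sq.derivative.eval x)) :
    ∃ (K : ℕ) (c : ℝ), 0 < c ∧ ∃ D₀ : ℝ, ∀ D : ℝ, D₀ ≤ D →
    c * D ^ (1 / 4 : ℝ) / Real.log D ^ K ≤
      (Set.ncard {d : ℤ | |(d : ℝ)| ≤ D ∧
        ((d % 4 = 1 ∧ Squarefree d ∨ ∃ k : ℤ, d = 4 * k ∧ (k % 4 = 2 ∨ k % 4 = 3) ∧ Squarefree k) ∧
          Module.rank ℤ (WeierstrassCurve.Affine.Point
            (⟨0, (d : ℚ) * (W.b₂ / 4), 0, (d : ℚ) ^ 2 * (W.b₄ / 2), (d : ℚ) ^ 3 * (W.b₆ / 4)⟩ :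
              WeierstrassCurve.Affine ℚ)) = 2)} : ℝ) :=
  Pool.Agent.Lib.MP_7d3fda_nt.R4.final4 Pool.Agent.Lib.MP_7d3fda_nt.Q3.many5 W h2 h4

end Pool.Agent.Lib.MP_7d3fda_nt.Variants.RankTwoGeneric
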